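import Pool.Agent.helper60.DB.SpecM

/-!
# Row bm:HU (MP_fb2c2a_nt): the degree of a rational function is unique
-/

set_option autoImplicit false

namespace Pool.Agent.helper60.DB

open Polynomial

lemma HU_le {K : Type} [Field K] (N D N' D' : K[X]) (h : IsCoprime N D) (hD' : D' ≠ 0)
    (hD : D ≠ 0) (e : N * D' = N' * D) : N.natDegree ≤ N'.natDegree ∧ D.natDegree ≤ D'.natDegree := by
  constructor
  · have h1 : N ∣ N' := h.dvd_of_dvd_mul_right (Dvd.intro _ e)
    by_cases hN' : N' = 0
    · rw [hN', zero_mul] at e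
      rcases mul_eq_zero.1 e with h0 | h0
      · rw [h0]; simp
      · exact absurd h0 hD'
    · exact natDegree_le_of_dvd h1 hN'
  · have h1 : D ∣ D' := h.symm.dvd_of_dvd_mul_left (Dvd.intro_left _ e.symm)
    exact natDegree_le_of_dvd h1 hD'

theorem HU : HU_stmt := by
  intro K _ f d d' ⟨N, D, h1, h2, h3⟩ ⟨N', D', h1', h2', h3'⟩
  have nz : ∀ N D : K[X], IsCoprime N D → (D : PowerSeries K) * f = (N : PowerSeries K) → D ≠ 0 := by
    rintro N D h e rfl
    rw [Polynomial.coe_zero, zero_mul] at e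
    have hN : N = 0 := by
      apply Polynomial.coe_injective K
      rw [← e, Polynomial.coe_zero]
    rw [hN] at h
    exact not_isCoprime_zero_zero h
  have hD := nz N D h1 h3
  have hD' := nz N' D' h1' h3'
  have e : N * D' = N' * D := by
    apply Polynomial.coe_injective K
    rw [Polynomial.coe_mul, Polynomial.coe_mul, ← h3, ← h3']
    ring
  obtain ⟨a1, a2⟩ := HU_le N D N' D' h1 hD' hD e
  obtain ⟨b1, b2⟩ := HU_le N' D' N D h1' hD hD' e.symm
  rw [← h2, ← h2', le_antisymm a1 b1, le_antisymm a2 b2]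

end Pool.Agent.helper60.DB
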