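import Pool.Agent.helper60.DB.SpecM

/-!
# Row bm:MO (MP_fb2c2a_nt): composition with an isogeny of odd degree
-/

set_option autoImplicit false

namespace Pool.Agent.helper60.DB

open Polynomial

lemma MO_cc {R : Type} [CommRing R] (ψ : PowerSeries R) (h : PowerSeries.constantCoeff ψ = 0)
    (P : R[X]) : PowerSeries.constantCoeff (aeval ψ P) = P.coeff 0 := by
  induction P using Polynomial.induction_on' with
  | add p q hp hq => rw [map_add, map_add, hp, hq, coeff_add]
  | monomial n a =>
    rw [aeval_monomial, map_mul, map_pow, h, coeff_monomial]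
    have : PowerSeries.constantCoeff (algebraMap R (PowerSeries R) a) = a := by
      rw [← PowerSeries.C_eq_algebraMap]; simp
    rw [this]
    by_cases hn : n = 0
    · subst hn; simp
    · rw [zero_pow hn, mul_zero, if_neg hn]

lemma MO_EE_mul {R : Type} [CommRing R] (f g : PowerSeries R) :
    EE (f * g) = f * EE g + g * EE f := by
  unfold EE
  rw [Derivation.leibniz]
  simp only [smul_eq_mul]
  ring

lemma MO_EE_aeval {R : Type} [CommRing R] (ψ : PowerSeries R) (P : R[X]) :
    EE (aeval ψ P) = aeval ψ (derivative P) * EE ψ := by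
  unfold EE
  rw [Derivation.map_aeval]
  simp only [smul_eq_mul]
  ring

lemma MO_EE_psi {R : Type} [CommRing R] (g : PowerSeries R) :
    EE (PowerSeries.X * g ^ 2) = 2 * (PowerSeries.X * g) * (g + EE g) := by
  have hX : EE (PowerSeries.X : PowerSeries R) = 2 * PowerSeries.X := by
    unfold EE
    simp
  rw [MO_EE_mul, pow_two, MO_EE_mul, hX]
  ring

lemma MO_EE_one {R : Type} [CommRing R] : EE (1 : PowerSeries R) = 0 := by
  unfold EE
  simp

theorem MO : MO_stmt := by
  intro R _ _ _ A' B' A'' B'' μ α P Q q y g u hO hM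
  set ψ : PowerSeries R := PowerSeries.X * g ^ 2 with hψ
  have hψ0 : PowerSeries.constantCoeff ψ = 0 := by rw [hψ]; simp
  have hode := congrArg (aeval ψ) hO.ode
  have hcur := congrArg (aeval ψ) hO.cur
  simp only [map_add, map_mul, map_sub, map_pow, aeval_X, aeval_C, map_one, map_ofNat] at hode hcur
  simp only [← PowerSeries.C_eq_algebraMap] at hode hcur
  have ha : PowerSeries.constantCoeff (aeval ψ P) = μ := by rw [MO_cc ψ hψ0, hO.p0]
  have hb : PowerSeries.constantCoeff (aeval ψ Q) = 1 := by rw [MO_cc ψ hψ0, hO.q0]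
  have hc : PowerSeries.constantCoeff (aeval ψ q) = 1 := by rw [MO_cc ψ hψ0, hO.r0]
  have eA := MO_EE_aeval ψ P
  have eB := MO_EE_aeval ψ Q
  have eψ : EE ψ = 2 * (PowerSeries.X * g) * (g + EE g) := MO_EE_psi g
  set a := aeval ψ P with hadef
  set b := aeval ψ Q with hbdef
  set c := aeval ψ q with hcdef
  set a' := aeval ψ (derivative P) with ha'def
  set b' := aeval ψ (derivative Q) with hb'def
  obtain ⟨w, hw⟩ : ∃ w, b * w = 1 := by
    have : IsUnit b := by
      rw [PowerSeries.isUnit_iff_constantCoeff, hb]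
      exact isUnit_one
    exact this.exists_right_inv
  have hw0 : PowerSeries.constantCoeff w = 1 := by
    have := congrArg PowerSeries.constantCoeff hw
    rwa [map_mul, hb, one_mul, map_one] at this
  have eW : EE w = -(w ^ 2 * EE b) := by
    have e := congrArg EE hw
    rw [MO_EE_mul, MO_EE_one] at e
    have : w * (b * EE w + w * EE b) = 0 := by rw [e, mul_zero]
    linear_combination this - EE w * hw
  have hu := hM.cur
  have hy := hM.ode
  rw [← hψ] at hu
  refine ⟨g * a * w, u * c * w ^ 2, ⟨?_, ?_, ?_, ?_⟩, ?_, ?_⟩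
  · rw [map_mul, map_mul, ha, hw0, hM.cg]
    ring
  · rw [map_mul, map_mul, map_pow, hc, hw0, hM.cu]
    ring
  · have e1 : PowerSeries.X * (g * a * w) ^ 2 = ψ * a ^ 2 * w ^ 2 := by rw [hψ]; ring
    rw [e1]
    have e2 : (b * w) ^ 4 = 1 := by rw [hw, one_pow]
    have e3 : (b * w) ^ 2 = 1 := by rw [hw, one_pow]
    linear_combination c ^ 2 * w ^ 4 * hu + w ^ 4 * hcur + e2 +
      PowerSeries.C A'' * ψ * a ^ 2 * w ^ 2 * e3
  · have e1 : EE (g * a * w) = a * w * EE g + g * w * EE a + g * a * EE w := by
      rw [MO_EE_mul, MO_EE_mul]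
      ring
    rw [e1, eW, eA, eB, eψ, map_mul]
    have e2 : y * (g * a * w + (a * w * EE g + g * w * (a' * (2 * (PowerSeries.X * g) * (g + EE g))) +
        g * a * -(w ^ 2 * (b' * (2 * (PowerSeries.X * g) * (g + EE g)))))) =
        y * (g + EE g) * (a * w * (b * w) + 2 * ψ * (a' * w * (b * w) - a * b' * w ^ 2)) := by
      rw [hw, hψ]
      ring
    rw [e2, hy]
    linear_combination PowerSeries.C α * u * w ^ 2 * hode
  · linear_combination g * a * hw
  · have e3 : (b * w) ^ 2 = 1 := by rw [hw, one_pow]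
    linear_combination u * c * e3

end Pool.Agent.helper60.DB
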